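import Pool.Agent.Helper472.HC.Pot

/-!
# The cycles of integral Hénon maps with Jacobian determinant `±1` on the integral plane

`f(x, y) = (y, F(y) - δ x)` with `F ∈ ℤ[X]` and `δ = ±1`. The cycle of a periodic point of `f` in
`ℤ²` is the same thing as a bounded (then periodic) sequence `x : ℤ → ℤ` of integers with
`x (n + 1) + δ x (n - 1) = F (x n)`: the points of the cycle are `(x n, x (n + 1))`. We determine all
the sequences that arise in this way, for all `F` (of any degree) at once, and conversely each of them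
arises from monic polynomials `F` of all the degrees `d ≥ 8`. In particular the length of a cycle is
`1, 2, 3, 4` or `6` for `δ = 1`, and `1, 2, 3, 4, 6` or `8` for `δ = -1`, whatever the degree is.

More generally, let `F ∈ ℚ[X]` and `δ ∈ ℚ`, `δ ≠ 0`, be such that `f` has potentially good reduction at
all primes. Then `δ = ±1`, and every rational cycle of `f` is the image of one of the integral cycles
of the list under a rational affine map `z ↦ a + r z` of the coordinate. So the same periods occur.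

Proof. Let `0` be the least and `S` the greatest term. Since `F ∈ ℤ[X]`,
`F(a) = s + c a - a (S - a) G(a)`, `G ∈ ℤ[X]`, and all values of `F` at the terms are between `0` and
`2S` (`-S` and `S` if `δ = -1`). If `S ≥ 10`, this forces `G(a) = 0` for `3 ≤ a ≤ S - 3`, and leaves
few values at the other `a`, so that the cycle follows the linear recursion with `|c| ≤ 2` except near
the ends. If `S ≤ 9`, the divisibilities between the divided differences of `F` leave a finite search
tree, which is checked completely by the kernel (no compiler is trusted). In the case of potentially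
good reduction, let `r` generate the group spanned by the differences of the coordinates of the cycle;
in the coordinate `x = x₀ + r x'` the map has integral coefficients, since this is so at each prime.
-/

set_option autoImplicit false

namespace Pool.Agent.Results.MP_0e6b5f_nt.CycleShapes

open Polynomial NumberField Pool.Agent.Helper472.HC

/-- `x` is an orbit: `x (n + 1) + δ x (n - 1) = F (x n)` for all `n`; that is,
`(x n, x (n + 1)) ↦ (x (n + 1), x (n + 2))` under `f(x, y) = (y, F(y) - δ x)`. -/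
def Orbit (F : ℤ[X]) (δ : ℤ) (x : ℤ → ℤ) : Prop :=
  ∀ n, x (n + 1) + δ * x (n - 1) = F.eval (x n)

/-- The orbits for `δ = 1`: the sequences of period `2` and the solutions of
`x (n + 1) + x (n - 1) = s + c x n` with `c = -1` (period `3`), `c = 0` (period `4`) and `c = 1`
(period `6`). -/
def ShapeOne (x : ℤ → ℤ) : Prop :=
  (∀ n, x (n + 2) = x n) ∨
    ∃ c s : ℤ, (c = -1 ∨ c = 0 ∨ c = 1) ∧ ∀ n, x (n + 1) + x (n - 1) = s + c * x n

/-- The repeated lists for `δ = -1`. -/
def List1 (l : List ℤ) : Prop :=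
  (∃ a b : ℤ, (a = 1 ∨ a = 2) ∧ 0 ≤ b ∧ l = [0, a, b, a + b]) ∨ l = [0, 1, 2] ∨ l = [0, 3, 6] ∨
    l = [0, 3, 2, 2, 1, 4] ∨ l = [0, 1, 2, 1, 4, 3, 2, 3] ∨ l = [0, 2, 3, 1, 2, 4, 1, 3]

/-- Up to a shift of the index and a translation, `x` is the periodic repetition of `l`. -/
def Repeats (l : List ℤ) (x : ℤ → ℤ) : Prop :=
  ∃ t b : ℤ, ∀ n : ℤ, x (t + n) = b + l.getD (n % l.length).toNat 0

/-- The orbits for `δ = -1`: the sequences of period `2` and, up to shifts, translations and the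
reversal `n ↦ -n`, the repetitions of the lists above. -/
def ShapeNeg (x : ℤ → ℤ) : Prop :=
  (∀ n, x (n + 2) = x n) ∨ ∃ l, List1 l ∧ (Repeats l x ∨ Repeats l (fun n => x (-n)))

/-- The generalized Hénon map `f(x, y) = (y, F(y) - δ x)` on the rational plane. -/
def henon (F : ℚ[X]) (δ : ℚ) (P : ℚ × ℚ) : ℚ × ℚ := (P.2, F.eval P.2 - δ * P.1)

/-- `f(x, y) = (y, F(y) - δ x)` has potentially good reduction at the finite place `v`: `δ` is a
`v`-adic unit and, for an absolute value `w` on the algebraic closure extending `v` and an affine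
coordinate `x = l x' + b` over the algebraic closure, the map becomes
`(x', y') ↦ (y', g(y') - δ x')` with a polynomial `g` with `w`-integral coefficients whose leading
coefficient is a `w`-adic unit. (Stated for a number field `K`; we use `K = ℚ`.) -/
def PotGood {K : Type} [Field K] [NumberField K] (v : FinitePlace K) (F : K[X]) (δ : K) : Prop :=
  v δ = 1 ∧ ∃ w : AbsoluteValue (AlgebraicClosure K) ℝ,
    (∀ x : K, w (algebraMap K (AlgebraicClosure K) x) = v x) ∧
    ∃ (g : (AlgebraicClosure K)[X]) (l b : AlgebraicClosure K), l ≠ 0 ∧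
      (∀ j, w (g.coeff j) ≤ 1) ∧ w g.leadingCoeff = 1 ∧
      C l * g = (F.map (algebraMap K (AlgebraicClosure K))).comp (C l * X + C b) -
        C ((1 + algebraMap K (AlgebraicClosure K) δ) * b)

/-- **Theorem.** (1) The bounded integral orbits for `δ = 1` (`F ∈ ℤ[X]` arbitrary) all have
`ShapeOne`, and conversely for every `d ≥ 8` each `x` with `ShapeOne` is an orbit for some monic
`F ∈ ℤ[X]` of degree `d`. (2) The same for `δ = -1` and `ShapeNeg`. (3) Let `f` be a generalized Hénon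
map over `ℚ` of degree `≥ 2` with potentially good reduction at all primes. Then `δ = ±1`, and for each
rational periodic point `P` of `f` there are `a, r ∈ ℚ`, `r ≠ 0`, and `y : ℤ → ℤ` of `ShapeOne` if
`δ = 1`, of `ShapeNeg` if `δ = -1`, with `f^k(P) = (a + r y(k), a + r y(k + 1))` for all `k`; the
minimal period of `P` is `1, 2, 3, 4, 6` if `δ = 1`, and `1, 2, 3, 4, 6, 8` if `δ = -1`. (4) All these
periods occur, for each degree `d ≥ 8`, at integral points of maps with monic `F ∈ ℤ[X]`. -/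
theorem result :
    ((∀ (F : ℤ[X]) (x : ℤ → ℤ), (∃ B, ∀ n, |x n| ≤ B) → Orbit F 1 x → ShapeOne x) ∧
      ∀ (x : ℤ → ℤ) (d : ℕ), ShapeOne x → 8 ≤ d →
        ∃ F : ℤ[X], F.Monic ∧ F.natDegree = d ∧ Orbit F 1 x) ∧
    ((∀ (F : ℤ[X]) (x : ℤ → ℤ), (∃ B, ∀ n, |x n| ≤ B) → Orbit F (-1) x → ShapeNeg x) ∧
      ∀ (x : ℤ → ℤ) (d : ℕ), ShapeNeg x → 8 ≤ d →
        ∃ F : ℤ[X], F.Monic ∧ F.natDegree = d ∧ Orbit F (-1) x) ∧
    (∀ (F : ℚ[X]) (δ : ℚ), 2 ≤ F.natDegree → δ ≠ 0 → (∀ v : FinitePlace ℚ, PotGood v F δ) →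
      (δ = 1 ∨ δ = -1) ∧ ∀ P ∈ Function.periodicPts (henon F δ),
        (∃ (a r : ℚ) (y : ℤ → ℤ), r ≠ 0 ∧ (δ = 1 → ShapeOne y) ∧ (δ = -1 → ShapeNeg y) ∧
          ∀ k : ℕ, (henon F δ)^[k] P = (a + r * y k, a + r * y (k + 1))) ∧
        (δ = 1 → Function.minimalPeriod (henon F δ) P ∈ ({1, 2, 3, 4, 6} : Set ℕ)) ∧
        (δ = -1 → Function.minimalPeriod (henon F δ) P ∈ ({1, 2, 3, 4, 6, 8} : Set ℕ))) ∧
    (∀ d : ℕ, 8 ≤ d →
      (∀ m ∈ ({1, 2, 3, 4, 6} : Set ℕ), ∃ F : ℤ[X], F.Monic ∧ F.natDegree = d ∧ ∃ a b : ℤ,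
        Function.minimalPeriod (henon (F.map (Int.castRingHom ℚ)) 1) ((a : ℚ), (b : ℚ)) = m) ∧
      ∀ m ∈ ({1, 2, 3, 4, 6, 8} : Set ℕ), ∃ F : ℤ[X], F.Monic ∧ F.natDegree = d ∧ ∃ a b : ℤ,
        Function.minimalPeriod (henon (F.map (Int.castRingHom ℚ)) (-1)) ((a : ℚ), (b : ℚ)) = m) := by
  have d4 : ∀ k : ℕ, k ∣ 4 → k = 1 ∨ k = 2 ∨ k = 4 := fun k h => by
    have h1 : k ∈ Nat.divisors 4 := Nat.mem_divisors.2 ⟨h, by norm_num⟩
    rw [show Nat.divisors 4 = {1, 2, 4} by decide] at h1
    simpa using h1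
  have d6 : ∀ k : ℕ, k ∣ 6 → k = 1 ∨ k = 2 ∨ k = 3 ∨ k = 6 := fun k h => by
    have h1 : k ∈ Nat.divisors 6 := Nat.mem_divisors.2 ⟨h, by norm_num⟩
    rw [show Nat.divisors 6 = {1, 2, 3, 6} by decide] at h1
    simpa using h1
  have d8 : ∀ k : ℕ, k ∣ 8 → k = 1 ∨ k = 2 ∨ k = 4 ∨ k = 8 := fun k h => by
    have h1 : k ∈ Nat.divisors 8 := Nat.mem_divisors.2 ⟨h, by norm_num⟩
    rw [show Nat.divisors 8 = {1, 2, 4, 8} by decide] at h1
    simpa using h1
  refine ⟨⟨fun F x hb h => cyc1_of hb h, fun x d h hd => cyc1_conv h (by omega)⟩,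
    ⟨fun F x hb h => classify_neg hb h, fun x d h hd => cyc2_conv h hd⟩, ?_, ?_⟩
  · intro F δ hF hδ0 hgood
    have hδ : δ = 1 ∨ δ = -1 := unit_of_places δ hδ0 fun v => (hgood v).1
    refine ⟨hδ, ?_⟩
    rintro P ⟨N, hN, hP⟩
    obtain ⟨δ', rfl, hδ'⟩ : ∃ δ' : ℤ, (δ' : ℚ) = δ ∧ (δ' = 1 ∨ δ' = -1) := by
      rcases hδ with rfl | rfl
      · exact ⟨1, by simp, Or.inl rfl⟩
      · exact ⟨-1, by simp, Or.inr rfl⟩
    have hpot : ∀ v : FinitePlace ℚ, Pool.Agent.TH737.HEN.PotInt v F (δ' : ℚ) :=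
      fun v => ⟨(hgood v).1.le, (hgood v).2⟩
    obtain ⟨a, r, y, hr, h1, h2, hk⟩ := pot_cycle F δ' hF hpot (f := henon F (δ' : ℚ))
      (fun P => rfl) hN hP
    have c1 : (δ' : ℚ) = 1 → δ' = 1 := fun h => by exact_mod_cast h
    have c2 : (δ' : ℚ) = -1 → δ' = -1 := fun h => by exact_mod_cast h
    refine ⟨⟨a, r, y, hr, fun h => h1 (c1 h), fun h => h2 (c2 h), hk⟩, ?_, ?_⟩
    · intro h
      simp only [Set.mem_insert_iff, Set.mem_singleton_iff]
      rcases cyc1_per (h1 (c1 h)) with h3 | h3 | h3 | h3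
      · rcases d4 _ ((dvd_of_cycle (m := 2) hk h3).trans (by norm_num)) with h | h | h <;> simp [h]
      · rcases d6 _ ((dvd_of_cycle (m := 3) hk h3).trans (by norm_num)) with h | h | h | h <;>
          simp [h]
      · rcases d4 _ (dvd_of_cycle (m := 4) hk h3) with h | h | h <;> simp [h]
      · rcases d6 _ (dvd_of_cycle (m := 6) hk h3) with h | h | h | h <;> simp [h]
    · intro h
      simp only [Set.mem_insert_iff, Set.mem_singleton_iff]
      rcases cyc2_per (h2 (c2 h)) with h3 | h3 | h3 | h3 | h3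
      · rcases d4 _ ((dvd_of_cycle (m := 2) hk h3).trans (by norm_num)) with h | h | h <;> simp [h]
      · rcases d6 _ ((dvd_of_cycle (m := 3) hk h3).trans (by norm_num)) with h | h | h | h <;>
          simp [h]
      · rcases d4 _ (dvd_of_cycle (m := 4) hk h3) with h | h | h <;> simp [h]
      · rcases d6 _ (dvd_of_cycle (m := 6) hk h3) with h | h | h | h <;> simp [h]
      · rcases d8 _ (dvd_of_cycle (m := 8) hk h3) with h | h | h | h <;> simp [h]
  · intro d hd
    constructor
    · intro m hm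
      simp only [Set.mem_insert_iff, Set.mem_singleton_iff] at hm
      obtain ⟨F, hF, hFd, a, b, h⟩ := attained_one hm hd
      refine ⟨F, hF, hFd, a, b, h _ (fun P => ?_)⟩
      unfold henon
      rw [aeval_def, eval_map]
      simp
    · intro m hm
      simp only [Set.mem_insert_iff, Set.mem_singleton_iff] at hm
      obtain ⟨F, hF, hFd, a, b, h⟩ := attained_neg hm hd
      refine ⟨F, hF, hFd, a, b, h _ (fun P => ?_)⟩
      unfold henon
      rw [aeval_def, eval_map]
      simp

end Pool.Agent.Results.MP_0e6b5f_nt.CycleShapes
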