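import Pool.Agent.Helper472.HC.Many

/-!
# Rational cycles of length `4d - 1` and `4d + 2` of Hénon maps of degree `d`

Interpolation gives generalized Hénon maps of degree `d` over `ℚ` with a rational cycle of length
`d + 2`. For `δ = 1` and `F = s + (X choose d)` there are much longer ones: if `d` is even and
`s = d - 2`, the cycle of `(d - 1, -1)` has length `4d - 1`; if `d ≥ 3` is odd and `s = d - 1`, the cycle
of `(d, d)` has length `4d + 2`. It runs along the boundary of a square, with a shift after each round.
-/

set_option autoImplicit false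

namespace Pool.Agent.Results.MP_0e6b5f_nt.LongCycles

open Polynomial Pool.Agent.Helper472.Many

/-- The generalized Hénon map `f(x, y) = (y, F(y) - δ x)`. -/
def henon {K : Type*} [Field K] (F : K[X]) (δ : K) (P : K × K) : K × K :=
  (P.2, F.eval P.2 - δ * P.1)

/-- **Theorem.** Let `d ≥ 2`. There is a generalized Hénon map of degree `d` over `ℚ`, with `δ = 1`,
that has a cycle in `ℤ²` of length exactly `4d - 1` if `d` is even, and exactly `4d + 2` if `d` is
odd. -/
theorem result (d : ℕ) (hd : 2 ≤ d) : ∃ F : ℚ[X], F.natDegree = d ∧ ∃ a b : ℤ,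
    (Even d → Function.minimalPeriod (henon F 1) ((a : ℚ), (b : ℚ)) = 4 * d - 1) ∧
    (Odd d → Function.minimalPeriod (henon F 1) ((a : ℚ), (b : ℚ)) = 4 * d + 2) := by
  rcases Nat.even_or_odd d with he | ho
  · refine ⟨F ℚ d - 1, natDegree_sub_one d (by omega), (d : ℤ) - 1, -1, fun _ => ?_, fun h => ?_⟩
    · have hf : henon (F ℚ d - 1) 1 = g ℚ d := by
        funext P
        simp [henon, g]
      rw [hf]
      exact long_cycle_even he hd
    · exact absurd he (Nat.not_even_iff_odd.2 h)
  · refine ⟨F ℚ d, F_natDegree d (by omega), (d : ℤ), (d : ℤ), fun h => ?_, fun _ => ?_⟩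
    · exact absurd h (Nat.not_even_iff_odd.2 ho)
    · have hf : henon (F ℚ d) 1 = f ℚ d := by
        funext P
        simp [henon, f]
      rw [hf]
      obtain ⟨m, rfl⟩ := ho
      have h := long_cycle (K := ℚ) (m := m) (by omega)
      simpa using h

end Pool.Agent.Results.MP_0e6b5f_nt.LongCycles
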