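import Pool.Agent.Helper472.HC.Many
import Pool.Agent.Helper472.HC.Many2

/-!
# Hénon maps of degree `d` with more than `(d + 2)²` rational periodic points, for every `d ≥ 2`

`F = d - 1 + (X choose d) ∈ ℚ[X]` and `δ = 1`: `f(x, y) = (y, F(y) - x)`. Since `F(y) = d - 1` for
`0 ≤ y < d`, `F(d) = d` and `F(d + 1) = 2d`, `f` maps the square `[-1, d]²` (without `(-1, -1)`)
together with the two points `(d, d + 1)`, `(d + 1, d)` to itself if `d` is even; if `d` is odd, it maps
`[-1, d]²` together with four points to itself. As `f` is injective, all these points are periodic.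

If `d = 4k(k+2)`, there is a better choice. Put `S = d + 3` and let `F` be equal to `S` at the integers of
`[0, S]` except at the four holes `a, a + 1, b, b + 1`, `a = 2k² + 3k`, `b = 2k² + 5k + 2`. The polynomial
`∏ (X - j)` (`j ∈ [0, S]` not a hole) takes the same value at the four holes, so `F` can be chosen to be
`S - 1` there. Then `f` maps `[0, S]²` without the eight points `(h, S)`, `(S, h)` (`h` a hole) to itself.
-/

set_option autoImplicit false

namespace Pool.Agent.Results.MP_0e6b5f_nt.ManyPoints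

open Polynomial Pool.Agent.Helper472.Many Pool.Agent.Helper472.Many2

/-- The generalized Hénon map `f(x, y) = (y, F(y) - δ x)`. -/
def henon {K : Type*} [Field K] (F : K[X]) (δ : K) (P : K × K) : K × K :=
  (P.2, F.eval P.2 - δ * P.1)

/-- The periodic points of `f(x, y) = (y, F(y) - x)` in `K²` with both coordinates in `ℤ`. -/
def intPer (K : Type*) [Field K] [CharZero K] (F : ℚ[X]) : Set (K × K) :=
  {P : K × K | (∃ a b : ℤ, P = ((a : K), (b : K))) ∧
    ∃ n : ℕ, 1 ≤ n ∧ (henon (F.map (algebraMap ℚ K)) 1)^[n] P = P}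

theorem key {K : Type*} [Field K] [CharZero K] {G : ℚ[X]} {g : K × K → K × K}
    (hg : Function.Injective g) (hG : henon (G.map (algebraMap ℚ K)) 1 = g)
    (E : Finset (ℤ × ℤ)) (h : ∀ P ∈ E, ∃ Q ∈ E, g (emb K P) = emb K Q) :
    ((E.card : ℕ) : ℕ∞) ≤ (intPer K G).encard := by
  classical
  have h1 : ((E.image (emb K)).card : ℕ∞) ≤ (intPer K G).encard := by
    rw [← Set.encard_coe_eq_coe_finsetCard]
    refine Set.encard_le_encard ?_
    intro P hP
    refine ⟨?_, ?_⟩
    · rw [Finset.mem_coe, Finset.mem_image] at hP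
      obtain ⟨⟨a, b⟩, -, rfl⟩ := hP
      exact ⟨a, b, rfl⟩
    · rw [hG]
      refine periodic_of_finite hg
        (E := ((E.image (emb K) : Finset (K × K)) : Set (K × K))) (Finset.finite_toSet _) ?_ hP
      intro Q hQ
      rw [Finset.mem_coe, Finset.mem_image] at hQ
      obtain ⟨R, hR, rfl⟩ := hQ
      obtain ⟨R', hR', h2⟩ := h R hR
      rw [h2, Finset.mem_coe]
      exact Finset.mem_image_of_mem _ hR'
  rwa [Finset.card_image_of_injective _ emb_injective] at h1

theorem first (d : ℕ) (hd : 2 ≤ d) : ∃ F : ℚ[X], F.natDegree = d ∧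
    ∀ (K : Type) [Field K] [CharZero K],
      (((d + 2) ^ 2 + 1 : ℕ) : ℕ∞) ≤ (intPer K F).encard ∧
      (Odd d → (((d + 2) ^ 2 + 4 : ℕ) : ℕ∞) ≤ (intPer K F).encard) := by
  refine ⟨F ℚ d, F_natDegree d (by omega), fun K _ _ => ?_⟩
  have hmap : (F ℚ d).map (algebraMap ℚ K) = F K d := by
    unfold F
    simp [Polynomial.map_prod]
  have hf : henon ((F ℚ d).map (algebraMap ℚ K)) 1 = f K d := by
    rw [hmap]
    funext P
    simp [henon, f]
  refine ⟨?_, fun hodd => ?_⟩
  · rcases Nat.even_or_odd d with he | ho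
    · rw [← card_Ee]
      exact key (f_injective d) hf _ fun P hP => maps_even he hd hP
    · have h1 := key (f_injective d) hf _ fun P hP => maps_odd ho hd hP
      rw [card_Eo] at h1
      refine le_trans ?_ h1
      norm_cast
      omega
  · rw [← card_Eo]
    exact key (f_injective d) hf _ fun P hP => maps_odd hodd hd hP

theorem second (d k : ℕ) (hk : 1 ≤ k) (hd : d = 4 * k * (k + 2)) : ∃ F : ℚ[X], F.natDegree = d ∧
    ∀ (K : Type) [Field K] [CharZero K], (((d + 4) ^ 2 - 8 : ℕ) : ℕ∞) ≤ (intPer K F).encard := by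
  refine ⟨F2 ℚ k, F2_natDegree hk hd, fun K _ _ => ?_⟩
  have hmap : (F2 ℚ k).map (algebraMap ℚ K) = F2 K k := by
    unfold F2
    simp [Polynomial.map_prod]
  have hf : henon ((F2 ℚ k).map (algebraMap ℚ K)) 1 = f2 K k := by
    rw [hmap]
    funext P
    simp [henon, f2]
  have h1 := key (f2_injective k) hf _ fun P hP => maps2 hk hP
  have h2 : (E2 (A k) (B k)).card = (d + 4) ^ 2 - 8 := by
    have h3 := card_E2 (ha hk) (hb hk)
    have h4 : A k + B k + 2 = (d : ℤ) + 4 := by
      rw [hd]; unfold A B; push_cast; ring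
    rw [h4] at h3
    have h5 : (((d + 4) ^ 2 : ℕ) : ℤ) = ((d : ℤ) + 4) ^ 2 := by push_cast; ring
    omega
  rwa [h2] at h1

/-- **Theorem.** (1) For every `d ≥ 2` there is a polynomial `F ∈ ℚ[X]` of degree `d` such that, for
every number field `K` (and every field of characteristic `0`), the generalized Hénon map
`f(x, y) = (y, F(y) - x)` has at least `(d + 2)² + 1` periodic points in `K²` with coordinates in `ℤ`,
and at least `(d + 2)² + 4` if `d` is odd. (2) If `d = 4k(k+2)` with `k ≥ 1`, there is such an `F` with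
at least `(d + 4)² - 8` points. -/
theorem result :
    (∀ d : ℕ, 2 ≤ d → ∃ F : ℚ[X], F.natDegree = d ∧ ∀ (K : Type) [Field K] [CharZero K],
      (((d + 2) ^ 2 + 1 : ℕ) : ℕ∞) ≤ (intPer K F).encard ∧
      (Odd d → (((d + 2) ^ 2 + 4 : ℕ) : ℕ∞) ≤ (intPer K F).encard)) ∧
    (∀ d k : ℕ, 1 ≤ k → d = 4 * k * (k + 2) → ∃ F : ℚ[X], F.natDegree = d ∧
      ∀ (K : Type) [Field K] [CharZero K],
        (((d + 4) ^ 2 - 8 : ℕ) : ℕ∞) ≤ (intPer K F).encard) :=
  ⟨first, second⟩

end Pool.Agent.Results.MP_0e6b5f_nt.ManyPoints
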